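import Mathlib

set_option autoImplicit false

namespace Pool.Agent.H3b28

open Finset

lemma sum_range_mul (U y : ℕ) (F : ℕ → ℝ) :
    ∑ n ∈ range (U * y), F n = ∑ j ∈ range y, ∑ lo ∈ range U, F (lo + U * j) := by
  induction y with
  | zero => simp
  | succ y ih =>
    rw [Nat.mul_succ, sum_range_add, ih, sum_range_succ]
    simp only [add_comm]

lemma sum_split (a b : ℕ) (F G : ℕ → ℝ) : ∑ w ∈ range (2 ^ (a + b)), F (w % 2 ^ a) * G (w / 2 ^ a) =
    (∑ u ∈ range (2 ^ a), F u) * ∑ y ∈ range (2 ^ b), G y := by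
  rw [pow_add, sum_range_mul, sum_mul_sum, sum_comm]
  refine sum_congr rfl fun u hu => sum_congr rfl fun y _ => ?_
  have := mem_range.mp hu
  rw [Nat.add_mul_mod_self_left, Nat.mod_eq_of_lt this, Nat.add_mul_div_left _ _ (by positivity),
    Nat.div_eq_of_lt this, zero_add]

/-- weight of the top `a` bits -/
noncomputable def HH (D M a u : ℕ) : ℝ :=
  (if 2 ^ a ≤ 2 * u then 1 else 0) + if 2 ^ a ≤ 2 * u ∧ u * 2 ^ (D - a) ≤ M then 1 else 0

lemma HH_nonneg (D M a u : ℕ) : 0 ≤ HH D M a u := by unfold HH; positivity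

lemma HH_le (D M a u : ℕ) : HH D M a u ≤ 2 := by unfold HH; split_ifs <;> norm_num

lemma sum_HH {D M a : ℕ} (ha : 1 ≤ a) (haD : a ≤ D) (hM : 2 ^ D ≤ 2 * M) :
    ∑ u ∈ range (2 ^ a), HH D M a u ≤ 2 ^ a * (M / 2 ^ D + (1 / 2) ^ a) := by
  obtain ⟨a, rfl⟩ := Nat.exists_eq_add_of_le' ha
  obtain ⟨c, rfl⟩ := Nat.exists_eq_add_of_le haD
  simp only [HH, sum_add_distrib, sum_boole, Nat.add_sub_cancel_left]
  have h0 : 2 ^ a ≤ M / 2 ^ c := by
    rw [Nat.le_div_iff_mul_le (by positivity)]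
    rw [pow_add, pow_succ] at hM
    nlinarith
  have h1 : ((range (2 ^ (a + 1))).filter fun u => 2 ^ (a + 1) ≤ 2 * u).card ≤ 2 ^ a := by
    refine (card_le_card (t := Ico (2 ^ a) (2 ^ (a + 1))) fun u hu => ?_).trans (by
      rw [Nat.card_Ico, pow_succ]; omega)
    simp only [mem_filter, mem_range, mem_Ico, pow_succ] at hu ⊢
    omega
  have h2 : ((range (2 ^ (a + 1))).filter fun u => 2 ^ (a + 1) ≤ 2 * u ∧ u * 2 ^ c ≤ M).card ≤
      M / 2 ^ c + 1 - 2 ^ a := by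
    refine (card_le_card (t := Icc (2 ^ a) (M / 2 ^ c)) fun u hu => ?_).trans (by rw [Nat.card_Icc])
    simp only [mem_filter, mem_range, mem_Icc, pow_succ] at hu ⊢
    exact ⟨by omega, (Nat.le_div_iff_mul_le (by positivity)).mpr hu.2.2⟩
  have h3 : ((M / 2 ^ c : ℕ) : ℝ) ≤ M / 2 ^ c := by exact_mod_cast Nat.cast_div_le (α := ℝ) (m := M) (n := 2 ^ c)
  have h4 : (2 : ℝ) ^ (a + 1) * (M / 2 ^ (a + 1 + c) + (1 / 2) ^ (a + 1)) = M / 2 ^ c + 1 := by
    rw [one_div, inv_pow, pow_add _ _ c]; field_simp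
  rw [h4, ← Nat.cast_add]
  refine le_trans ?_ (add_le_add h3 le_rfl)
  exact_mod_cast (by omega)

lemma HH_shift {D M a b : ℕ} (hb : 1 ≤ b) (h : a + b ≤ D) (w : ℕ) :
    HH D M (a + b) (w % 2 ^ (a + b)) ≤ HH D M b (w / 2 ^ a % 2 ^ b) := by
  rw [← Nat.mod_mul_right_div_self, ← pow_add]
  generalize w % 2 ^ (a + b) = u
  obtain ⟨b, rfl⟩ := Nat.exists_eq_add_of_le' hb
  have h1 : 2 ^ (a + (b + 1)) ≤ 2 * u → 2 ^ (b + 1) ≤ 2 * (u / 2 ^ a) := by
    intro h1
    rw [pow_succ'] 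
    refine Nat.mul_le_mul_left _ ((Nat.le_div_iff_mul_le (by positivity)).mpr ?_)
    rw [← add_assoc, pow_succ', pow_add, mul_comm (2 ^ a)] at h1
    omega
  have h2 : u / 2 ^ a * 2 ^ (D - (b + 1)) ≤ u * 2 ^ (D - (a + (b + 1))) := by
    rw [show D - (b + 1) = a + (D - (a + (b + 1))) by omega, pow_add, ← mul_assoc]
    exact Nat.mul_le_mul_right _ (Nat.div_mul_le_self _ _)
  unfold HH
  refine add_le_add ?_ ?_
  · split_ifs with c1 c2
    · exact le_rfl
    · exact absurd (h1 c1) c2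
    · norm_num
    · exact le_rfl
  · split_ifs with c1 c2
    · exact le_rfl
    · exact absurd ⟨h1 c1.1, h2.trans c1.2⟩ c2
    · norm_num
    · exact le_rfl

section
variable {D M k : ℕ} (hk : k ≤ D) (hM : 2 ^ D ≤ 2 * M) (hM' : M ≤ 2 ^ D)
include hk hM

lemma mom1 {a : ℕ} (ha : 1 ≤ a) (hak : a ≤ k) :
    ∑ w ∈ range (2 ^ k), HH D M a (w % 2 ^ a) ≤ 2 ^ k * (M / 2 ^ D + (1 / 2) ^ a) := by
  obtain ⟨c, rfl⟩ := Nat.exists_eq_add_of_le hak
  have := sum_split a c (HH D M a) fun _ => 1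
  simp only [mul_one, sum_const, card_range, nsmul_eq_mul] at this
  rw [this, pow_add, mul_right_comm]
  push_cast
  exact mul_le_mul_of_nonneg_right (sum_HH ha (by omega) hM) (by positivity)

include hM'

lemma mom2 {a b : ℕ} (ha : 1 ≤ a) (hb : 1 ≤ b) (hak : a + b ≤ k) :
    ∑ w ∈ range (2 ^ k), HH D M a (w % 2 ^ a) * HH D M (a + b) (w % 2 ^ (a + b)) ≤
      2 ^ k * ((M / 2 ^ D) ^ 2 + (1 / 2) ^ a + 2 * (1 / 2) ^ b) := by
  obtain ⟨c, rfl⟩ : ∃ c, k = a + c := ⟨k - a, by omega⟩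
  refine (sum_le_sum fun w _ => mul_le_mul_of_nonneg_left (HH_shift hb (by omega) w)
    (HH_nonneg _ _ _ _)).trans ?_
  rw [sum_split a c (HH D M a) fun y => HH D M b (y % 2 ^ b)]
  refine (mul_le_mul (sum_HH ha (by omega) hM) (mom1 (by omega) hM hb (by omega))
    (sum_nonneg fun _ _ => HH_nonneg _ _ _ _) (by positivity)).trans ?_
  rw [mul_mul_mul_comm, ← pow_add]
  refine mul_le_mul_of_nonneg_left ?_ (by positivity)
  have h1 : (M : ℝ) / 2 ^ D ≤ 1 := div_le_one_of_le₀ (by exact_mod_cast hM') (by positivity)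
  have h2 : ((1 : ℝ) / 2) ^ a ≤ 1 := pow_le_one₀ (by norm_num) (by norm_num)
  have h3 : 0 ≤ ((1 : ℝ) / 2) ^ a := by positivity
  have h4 : 0 ≤ ((1 : ℝ) / 2) ^ b := by positivity
  nlinarith

lemma mom (P : ℝ) (hP : 0 ≤ P) : ∀ j ≤ k,
    ∑ w ∈ range (2 ^ k), (P + ∑ a ∈ range j, HH D M (a + 1) (w % 2 ^ (a + 1))) ^ 2 ≤
      2 ^ k * ((P + j * (M / 2 ^ D) + 2) ^ 2 + 16 * j) := by
  have hθ : (0 : ℝ) ≤ M / 2 ^ D := by positivity
  have k1 : ∀ j ≤ k, ∑ w ∈ range (2 ^ k), ∑ a ∈ range j, HH D M (a + 1) (w % 2 ^ (a + 1)) ≤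
      2 ^ k * (j * (M / 2 ^ D) + 2) := by
    intro j hj
    rw [sum_comm]
    refine (sum_le_sum fun a ha => mom1 hk hM (by omega) (by have := mem_range.mp ha; omega)).trans ?_
    rw [← mul_sum, sum_add_distrib, sum_const, card_range, nsmul_eq_mul]
    gcongr
    refine le_trans (sum_le_sum fun a _ => ?_) (sum_geometric_two_le j)
    exact pow_le_pow_of_le_one (by norm_num) (by norm_num) (by omega)
  have k2 : ∀ j ≤ k, ∑ w ∈ range (2 ^ k), (∑ a ∈ range j, HH D M (a + 1) (w % 2 ^ (a + 1))) ^ 2 ≤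
      2 ^ k * ((j * (M / 2 ^ D)) ^ 2 + 16 * j) := by
    intro j
    induction j with
    | zero => simp
    | succ j ih =>
      intro hj
      have a1 : ∑ w ∈ range (2 ^ k), (∑ a ∈ range j, HH D M (a + 1) (w % 2 ^ (a + 1))) *
          HH D M (j + 1) (w % 2 ^ (j + 1)) ≤ 2 ^ k * (j * (M / 2 ^ D) ^ 2 + 6) := by
        simp only [sum_mul]
        rw [sum_comm]
        refine (sum_le_sum (g := fun a => 2 ^ k * ((M / 2 ^ D : ℝ) ^ 2 + (1 / 2) ^ a +
          2 * (1 / 2) ^ (j - 1 - a))) fun a ha => ?_).trans ?_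
        · have := mem_range.mp ha
          have b1 := mom2 hk hM hM' (a := a + 1) (b := j - a) (by omega) (by omega) (by omega)
          rw [show a + 1 + (j - a) = j + 1 by omega] at b1
          refine b1.trans ?_
          gcongr _ * (_ + ?_ + 2 * ?_) <;>
            exact pow_le_pow_of_le_one (by norm_num) (by norm_num) (by omega)
        · rw [← mul_sum, sum_add_distrib, sum_add_distrib, sum_const, card_range, nsmul_eq_mul,
            ← mul_sum, sum_range_reflect (fun a => ((1 : ℝ) / 2) ^ a)]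
          have := sum_geometric_two_le j
          exact mul_le_mul_of_nonneg_left (by linarith) (by positivity)
      have a2 : ∑ w ∈ range (2 ^ k), HH D M (j + 1) (w % 2 ^ (j + 1)) ^ 2 ≤ 2 ^ k * 4 := by
        refine (sum_le_card_nsmul _ _ 4 fun w _ => ?_).trans (by simp)
        nlinarith [HH_le D M (j + 1) (w % 2 ^ (j + 1)), HH_nonneg D M (j + 1) (w % 2 ^ (j + 1))]
      simp only [sum_range_succ, add_sq, sum_add_distrib, mul_assoc, ← mul_sum]
      have a3 := ih (by omega)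
      have a4 : (0 : ℝ) ≤ 2 ^ k * (M / 2 ^ D) ^ 2 := by positivity
      push_cast
      linarith
  intro j hj
  simp only [add_sq P, sum_add_distrib, mul_assoc, ← mul_sum, sum_const, card_range, nsmul_eq_mul]
  have a1 := mul_le_mul_of_nonneg_left (k1 j hj) hP
  have a2 := k2 j hj
  have a3 : (0 : ℝ) ≤ 2 ^ k * (j * (M / 2 ^ D)) := by positivity
  have a4 : (0 : ℝ) ≤ 2 ^ k := by positivity
  push_cast
  linarith

end

lemma card_res (S : Finset ℕ) (lo q y : ℕ) (h1 : ∀ m ∈ S, lo ≤ m ∧ m < lo + q * y)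
    (h2 : ∀ m ∈ S, ∀ m' ∈ S, m ≡ m' [MOD q]) : S.card ≤ y := by
  rw [← card_range y]
  refine card_le_card_of_injOn (fun m => (m - lo) / q) (fun m hm => ?_) fun m hm m' hm' h => ?_
  · have := h1 m hm
    exact mem_coe.mpr (mem_range.mpr (Nat.div_lt_of_lt_mul (by omega)))
  · have a1 := h1 m hm
    have a2 := h1 m' hm'
    have a3 : (m - lo) % q = (m' - lo) % q :=
      Nat.ModEq.add_left_cancel' lo (by rw [Nat.add_sub_cancel' a1.1, Nat.add_sub_cancel' a2.1]; exact h2 m hm m' hm')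
    have a4 := Nat.div_add_mod (m - lo) q
    have a5 := Nat.div_add_mod (m' - lo) q
    simp only at h
    rw [h, a3, a5] at a4
    omega

lemma card_in (M r K w : ℕ) (hK : 0 < K) :
    (((range (M + 1)).filter fun m => m / 2 ^ r % K = w).card : ℝ) ≤ M / K + 2 ^ r := by
  have h1 : ((range (M + 1)).filter fun m => m / 2 ^ r % K = w).card ≤
      (range (M / (2 ^ r * K) + 1) ×ˢ range (2 ^ r)).card := by
    refine card_le_card_of_injOn (fun m => (m / (2 ^ r * K), m % 2 ^ r)) (fun m hm => ?_)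
      fun m hm m' hm' h => ?_
    · have := mem_range.mp (mem_filter.mp hm).1
      exact mem_coe.mpr (mem_product.mpr ⟨mem_range.mpr (Nat.lt_succ_of_le
        (Nat.div_le_div_right (by omega))), mem_range.mpr (Nat.mod_lt _ (by positivity))⟩)
    · simp only [Prod.mk.injEq, ← Nat.div_div_eq_div_mul] at h
      rw [← Nat.div_add_mod m (2 ^ r), ← Nat.div_add_mod m' (2 ^ r), ← Nat.div_add_mod (m / 2 ^ r) K,
        ← Nat.div_add_mod (m' / 2 ^ r) K, h.1, h.2, (mem_filter.mp hm).2, (mem_filter.mp hm').2]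
  rw [card_product, card_range, card_range] at h1
  have h2 : ((M / (2 ^ r * K) : ℕ) : ℝ) ≤ M / (2 ^ r * K) := by
    exact_mod_cast Nat.cast_div_le (α := ℝ) (m := M) (n := 2 ^ r * K)
  have h3 : (0 : ℝ) < K := by exact_mod_cast hK
  calc _ ≤ (((M / (2 ^ r * K) : ℕ) : ℝ) + 1) * 2 ^ r := by exact_mod_cast h1
    _ ≤ (M / (2 ^ r * K) + 1) * 2 ^ r := by gcongr
    _ = _ := by field_simp

end Pool.Agent.H3b28
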