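import Mathlib
import Pool.Agent.H.MP_3b2897_nt.A

set_option autoImplicit false

namespace Pool.Agent.H3b28

open Finset

/-- total number of binary digits of `1, ..., n` -/
def SS (n : ℕ) : ℕ := ∑ m ∈ range (n + 1), Nat.size m

/-- the integer obtained by concatenating `1, ..., n` in binary -/
def AA : ℕ → ℕ
  | 0 => 0
  | n + 1 => AA n * 2 ^ Nat.size (n + 1) + (n + 1)

lemma SS_succ (n : ℕ) : SS (n + 1) = SS n + Nat.size (n + 1) := sum_range_succ _ _

lemma SS_mono : Monotone SS := monotone_nat_of_le_succ fun n => by rw [SS_succ]; omega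

lemma le_SS (n : ℕ) : n ≤ SS n := by
  induction n with
  | zero => simp
  | succ n ih => have := Nat.size_pos.mpr (show 0 < n + 1 by omega); rw [SS_succ]; omega

lemma AA_eq (n : ℕ) : ∑ m ∈ range (n + 1), (m : ℝ) / 2 ^ SS m = AA n / 2 ^ SS n := by
  induction n with
  | zero => simp [AA]
  | succ n ih => rw [sum_range_succ, ih, AA, SS_succ, pow_add]; push_cast; field_simp

lemma AA_anti : Antitone fun n => ((AA n : ℝ) + 1) / 2 ^ SS n := antitone_nat_of_succ_le fun n => by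
  have h : ((n + 1 + 1 : ℕ) : ℝ) ≤ 2 ^ Nat.size (n + 1) := by exact_mod_cast Nat.lt_size_self (n + 1)
  rw [AA, SS_succ, pow_add, div_le_div_iff₀ (by positivity) (by positivity)]
  push_cast at h ⊢
  nlinarith [mul_le_mul_of_nonneg_left h (by positivity : (0 : ℝ) ≤ 2 ^ SS n)]

lemma cell {α : ℝ} (hα : α = ∑' n : ℕ, (n : ℝ) / 2 ^ SS n) {p r m : ℕ} (h : p + r = SS m) :
    0 ≤ 2 ^ p * α - (AA m / 2 ^ r : ℕ) ∧ 2 ^ p * α - (AA m / 2 ^ r : ℕ) ≤ 1 := by
  have h0 : ∀ n : ℕ, 0 ≤ (n : ℝ) / 2 ^ SS n := fun n => by positivity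
  have h1 : ∀ j, ∑ n ∈ range j, (n : ℝ) / 2 ^ SS n ≤ (AA m + 1) / 2 ^ SS m := fun j => by
    refine (sum_le_sum_of_subset_of_nonneg (range_mono (show j ≤ m + j + 1 by omega))
      fun _ _ _ => h0 _).trans ((AA_eq _).le.trans (le_trans ?_ (AA_anti (Nat.le_add_right m j))))
    exact div_le_div_of_nonneg_right (by linarith) (by positivity)
  have h2 := Real.tsum_le_of_sum_range_le h0 h1
  have h3 := (summable_of_sum_range_le h0 h1).sum_le_tsum (range (m + 1)) fun _ _ => h0 _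
  rw [AA_eq] at h3
  rw [← hα, ← h, pow_add] at h2 h3
  rw [le_div_iff₀ (by positivity)] at h2
  rw [div_le_iff₀ (by positivity)] at h3
  have h4 : ((AA m / 2 ^ r : ℕ) : ℝ) * 2 ^ r ≤ AA m := by exact_mod_cast Nat.div_mul_le_self _ _
  have h5 : (AA m : ℝ) + 1 ≤ 2 ^ r * ((AA m / 2 ^ r : ℕ) + 1) := by
    exact_mod_cast Nat.lt_mul_div_succ (AA m) (by positivity : 0 < 2 ^ r)
  have h6 : (0 : ℝ) < 2 ^ r := by positivity
  constructor
  · exact le_of_mul_le_mul_right (by linarith) h6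
  · exact le_of_mul_le_mul_right (by linarith) h6

lemma pos (p : ℕ) : ∃ m r, p + r = SS m ∧ (1 ≤ p → r < Nat.size m) ∧ ∀ M, p ≤ SS M → m ≤ M := by
  have hex : ∃ m, p ≤ SS m := ⟨p, le_SS p⟩
  have h1 := Nat.find_spec hex
  refine ⟨Nat.find hex, SS (Nat.find hex) - p, by omega, fun hp => ?_, fun M hM => Nat.find_min' hex hM⟩
  rcases h : Nat.find hex with _ | n
  · rw [h] at h1; simp [SS] at h1; omega
  · have := Nat.find_min hex (m := n) (by omega)
    rw [h] at h1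
    rw [SS_succ] at h1 ⊢
    omega

lemma SS_ge (D : ℕ) {M : ℕ} (hM : M < 2 ^ D) : (M + 1) * D ≤ SS M + 2 ^ D := by
  have h1 : ∀ D, ∑ m ∈ range (2 ^ D), (D - Nat.size m) + 1 ≤ 2 ^ D := by
    intro D
    induction D with
    | zero => simp
    | succ D ih =>
      rw [pow_succ, mul_two, sum_range_add, sum_eq_zero (s := range (2 ^ D))
        (f := fun x => D + 1 - Nat.size (2 ^ D + x)) fun x _ => by
          have := Nat.lt_size.mpr (Nat.le_add_right (2 ^ D) x); omega]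
      have := sum_le_sum (s := range (2 ^ D)) (f := fun m => D + 1 - Nat.size m)
        (g := fun m => D - Nat.size m + 1) fun m _ => by omega
      rw [sum_add_distrib] at this
      simp only [sum_const, card_range, smul_eq_mul, mul_one] at this
      omega
  have h2 := sum_le_sum_of_subset (f := fun m => D - Nat.size m) (range_mono (show M + 1 ≤ 2 ^ D by omega))
  have h3 := sum_le_sum (s := range (M + 1)) (f := fun _ => D)
    (g := fun m => Nat.size m + (D - Nat.size m)) fun m _ => by omega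
  rw [sum_add_distrib, sum_const, card_range, smul_eq_mul] at h3
  have := h1 D
  unfold SS
  omega

lemma pt_m {D k w m : ℕ} (hm : Nat.size m ≤ D) :
    ∑ r ∈ range (Nat.size m), (if AA m / 2 ^ r % 2 ^ (k + 1) = w then (1 : ℝ) else 0) ≤
      (if m ≤ 2 ^ (k + 1) then (k + 2 : ℝ) else 0) +
      ∑ r ∈ range (D - k), (if m / 2 ^ r % 2 ^ (k + 1) = w then (1 : ℝ) else 0) +
      ∑ a ∈ range k, (if k + 1 ≤ Nat.size m ∧ m / 2 ^ (Nat.size m - (a + 1)) = w % 2 ^ (a + 1) ∧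
        m ≡ w / 2 ^ (a + 1) + 1 [MOD 2 ^ (k - a)] then (1 : ℝ) else 0) := by
  by_cases h : m ≤ 2 ^ (k + 1)
  · rw [if_pos h, add_assoc]
    refine le_add_of_le_of_nonneg ((sum_le_card_nsmul _ _ 1 fun r _ => by split_ifs <;> norm_num).trans ?_)
      (by positivity)
    have : Nat.size m ≤ k + 2 := Nat.size_le.mpr (by rw [pow_succ 2 (k + 1)]; have := Nat.two_pow_pos (k + 1); omega)
    rw [card_range, nsmul_eq_mul, mul_one]
    exact_mod_cast this
  obtain ⟨n, rfl⟩ : ∃ n, m = n + 1 + 1 := ⟨m - 2, by have := Nat.two_pow_pos (k + 1); omega⟩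
  have h1 : k + 1 < Nat.size (n + 1) := Nat.lt_size.mpr (by omega)
  have h2 := Nat.size_le_size (Nat.le_succ (n + 1))
  obtain ⟨d, hd⟩ : ∃ d, Nat.size (n + 1 + 1) = d + k := ⟨Nat.size (n + 1 + 1) - k, by
    simp only [Nat.succ_eq_add_one] at h2; omega⟩
  have h3 := Nat.lt_size_self (n + 1 + 1)
  rw [if_neg h, zero_add, AA, hd, sum_range_add, ← sum_range_reflect _ k]
  rw [hd] at h3 hm
  refine add_le_add (le_trans (le_of_eq (sum_congr rfl fun r hr => ?_))
    (sum_le_sum_of_subset_of_nonneg (range_mono (show d ≤ D - k by omega)) fun _ _ _ => by positivity))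
    (sum_le_sum fun a ha => ?_)
  · obtain ⟨e, rfl⟩ := Nat.exists_eq_add_of_lt (mem_range.mp hr)
    rw [show AA (n + 1) * 2 ^ (r + e + 1 + k) = 2 ^ r * (2 ^ (k + 1) * (AA (n + 1) * 2 ^ e)) by ring,
      Nat.mul_add_div (by positivity), Nat.mul_add_mod]
  · obtain ⟨b, rfl⟩ := Nat.exists_eq_add_of_lt (mem_range.mp ha)
    rw [show a + b + 1 - 1 - a = b by omega, show d + (a + b + 1) - (a + 1) = d + b by omega,
      show a + b + 1 - a = b + 1 by omega,
      show AA (n + 1) * 2 ^ (d + (a + b + 1)) = 2 ^ (d + b) * (2 ^ (a + 1) * AA (n + 1)) by ring,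
      Nat.mul_add_div (by positivity)]
    have h4 : (n + 1 + 1) / 2 ^ (d + b) < 2 ^ (a + 1) :=
      Nat.div_lt_of_lt_mul (by rw [← pow_add]; convert h3 using 2; omega)
    generalize (n + 1 + 1) / 2 ^ (d + b) = u at h4
    split_ifs with c1 c2
    · exact le_rfl
    · refine absurd ⟨by simp only [Nat.succ_eq_add_one] at h2; omega, ?_, ?_⟩ c2
      · rw [← c1, Nat.mod_mod_of_dvd _ (pow_dvd_pow 2 (by omega)), Nat.mul_add_mod, Nat.mod_eq_of_lt h4]
      · rw [← c1, show a + b + 1 + 1 = (a + 1) + (b + 1) by omega, pow_add 2 (a + 1),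
          Nat.mod_mul_right_div_self, Nat.mul_add_div (by positivity), Nat.div_eq_of_lt h4, add_zero]
        refine Nat.ModEq.add_right 1 (Nat.ModEq.trans ?_ (Nat.mod_modEq _ _).symm)
        obtain ⟨e, he⟩ : ∃ e, Nat.size (n + 1) = b + 1 + e := ⟨Nat.size (n + 1) - (b + 1), by omega⟩
        rw [AA, he, pow_add 2 (b + 1), mul_comm (AA n), mul_assoc]
        exact (Nat.mul_add_mod _ _ _).symm
    · norm_num
    · exact le_rfl

lemma cnt_a {D M k a w : ℕ} (ha : a < k) (hk : k + 1 ≤ D) (hM : M < 2 ^ D) :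
    ∑ m ∈ range (M + 1), (if k + 1 ≤ Nat.size m ∧ m / 2 ^ (Nat.size m - (a + 1)) = w % 2 ^ (a + 1) ∧
        m ≡ w / 2 ^ (a + 1) + 1 [MOD 2 ^ (k - a)] then (1 : ℝ) else 0) ≤
      2 ^ (D - (k + 1)) * HH D M (a + 1) (w % 2 ^ (a + 1)) := by
  obtain ⟨c, rfl⟩ := Nat.exists_eq_add_of_le hk
  obtain ⟨b, rfl⟩ := Nat.exists_eq_add_of_lt ha
  rw [sum_boole, Nat.add_sub_cancel_left, show a + b + 1 - a = b + 1 by omega]
  generalize w % 2 ^ (a + 1) = u
  generalize w / 2 ^ (a + 1) + 1 = v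
  set T := (range (M + 1)).filter fun m => a + b + 1 + 1 ≤ Nat.size m ∧
    m / 2 ^ (Nat.size m - (a + 1)) = u ∧ m ≡ v [MOD 2 ^ (b + 1)] with hT
  have h1 : T.card = ∑ d ∈ range (c + 1), (T.filter fun m => Nat.size m - (a + b + 1 + 1) = d).card :=
    card_eq_sum_card_fiberwise fun m hm => by
      have := Nat.size_le.mpr ((Nat.le_of_lt_succ (mem_range.mp (mem_filter.mp hm).1)).trans_lt hM)
      exact mem_coe.mpr (mem_range.mpr (by omega))
  have h2 : ∀ d, ∀ m ∈ T.filter fun m => Nat.size m - (a + b + 1 + 1) = d,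
      m ≤ M ∧ 2 ^ (a + 1) ≤ 2 * u ∧ u * 2 ^ (b + 1 + d) ≤ m ∧
        m < u * 2 ^ (b + 1 + d) + 2 ^ (b + 1) * 2 ^ d ∧ m ≡ v [MOD 2 ^ (b + 1)] := by
    intro d m hm
    obtain ⟨b1, b2⟩ := mem_filter.mp hm
    obtain ⟨b3, b4, b5, b6⟩ := mem_filter.mp b1
    rw [show Nat.size m - (a + 1) = b + 1 + d by omega] at b5
    have b7 : 2 ^ (a + (b + 1 + d)) ≤ m := Nat.lt_size.mp (by omega)
    refine ⟨Nat.le_of_lt_succ (mem_range.mp b3), ?_, b5 ▸ Nat.div_mul_le_self _ _, ?_, b6⟩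
    · rw [pow_succ', ← b5]
      exact Nat.mul_le_mul_left _ ((Nat.le_div_iff_mul_le (by positivity)).mpr (pow_add 2 a _ ▸ b7))
    · have := Nat.lt_mul_div_succ m (show 0 < 2 ^ (b + 1 + d) by positivity)
      rw [b5, mul_add, mul_one, mul_comm] at this
      rwa [← pow_add]
  have h3 : ∀ d, (T.filter fun m => Nat.size m - (a + b + 1 + 1) = d).card ≤ 2 ^ d := fun d =>
    card_res _ (u * 2 ^ (b + 1 + d)) (2 ^ (b + 1)) _ (fun m hm => ⟨(h2 d m hm).2.2.1, (h2 d m hm).2.2.2.1⟩)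
      fun m hm m' hm' => (h2 d m hm).2.2.2.2.trans (h2 d m' hm').2.2.2.2.symm
  have h4 : ∑ d ∈ range c, 2 ^ d ≤ 2 ^ c := (Nat.geomSum_lt le_rfl fun _ h => mem_range.mp h).le
  rw [h1, sum_range_succ, HH, mul_add, Nat.cast_add,
    show a + b + 1 + 1 + c - (a + 1) = b + 1 + c by omega]
  refine add_le_add ?_ ?_
  · split_ifs with c1
    · rw [mul_one]; exact_mod_cast (sum_le_sum fun d _ => h3 d).trans h4
    · rw [sum_eq_zero fun d _ => card_eq_zero.mpr (eq_empty_of_forall_notMem fun m hm =>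
        c1 (h2 d m hm).2.1)]; simp
  · split_ifs with c1
    · rw [mul_one]; exact_mod_cast h3 c
    · rw [card_eq_zero.mpr (eq_empty_of_forall_notMem fun m hm =>
        c1 ⟨(h2 c m hm).2.1, (h2 c m hm).2.2.1.trans (h2 c m hm).1⟩)]; simp

lemma pt {D M k w : ℕ} (hk : 3 * (k + 1) ≤ D) (hM : M < 2 ^ D) :
    ∑ m ∈ range (M + 1), ∑ r ∈ range (Nat.size m),
      (if AA m / 2 ^ r % 2 ^ (k + 1) = w then (1 : ℝ) else 0) ≤
      2 ^ (D - (k + 1)) * (((D - k : ℕ) * (M / 2 ^ D) + 4) +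
        ∑ a ∈ range k, HH D M (a + 1) (w % 2 ^ (a + 1))) := by
  refine (sum_le_sum fun m hm => pt_m (D := D) (Nat.size_le.mpr
    ((Nat.le_of_lt_succ (mem_range.mp hm)).trans_lt hM))).trans ?_
  rw [sum_add_distrib, sum_add_distrib, sum_comm, sum_comm (s := range (M + 1)), mul_add, mul_sum]
  refine add_le_add ?_ (sum_le_sum fun a ha => cnt_a (mem_range.mp ha) (by omega) hM)
  obtain ⟨c, rfl⟩ : ∃ c, D = k + 1 + c := ⟨D - (k + 1), by omega⟩
  rw [Nat.add_sub_cancel_left, show k + 1 + c - k = c + 1 by omega]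
  have h1 : ∑ m ∈ range (M + 1), (if m ≤ 2 ^ (k + 1) then (k + 2 : ℝ) else 0) ≤ 2 * 2 ^ c := by
    rw [← sum_filter, sum_const, nsmul_eq_mul]
    have a1 : ((range (M + 1)).filter fun m => m ≤ 2 ^ (k + 1)).card ≤ 2 * 2 ^ (k + 1) :=
      (card_le_card (t := range (2 * 2 ^ (k + 1))) fun m hm => mem_range.mpr (by
        have := (mem_filter.mp hm).2
        have := Nat.two_pow_pos (k + 1)
        omega)).trans (card_range _).le
    have a2 := Nat.mul_le_mul a1 (Nat.succ_le_of_lt (Nat.lt_two_pow_self (n := k + 1)))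
    rw [mul_assoc, ← pow_add] at a2
    exact_mod_cast a2.trans (Nat.mul_le_mul_left _ (Nat.pow_le_pow_right (by norm_num) (by omega)))
  have h2 : ∑ r ∈ range (c + 1), ∑ m ∈ range (M + 1),
      (if m / 2 ^ r % 2 ^ (k + 1) = w then (1 : ℝ) else 0) ≤
      (c + 1 : ℕ) * (M / (2 ^ (k + 1) : ℕ)) + 2 ^ (c + 1) := by
    refine (sum_le_sum fun r _ => (sum_boole _ _).le.trans (card_in M r _ w (by positivity))).trans ?_
    rw [sum_add_distrib, sum_const, card_range, nsmul_eq_mul]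
    gcongr
    exact_mod_cast (Nat.geomSum_lt (m := 2) (s := range (c + 1)) le_rfl fun _ h => mem_range.mp h).le
  refine (add_le_add h1 h2).trans (le_of_eq ?_)
  push_cast
  field_simp
  ring

end Pool.Agent.H3b28
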