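import Mathlib
import Pool.Agent.H.MP_3b2897_nt.B

set_option autoImplicit false

namespace Pool.Agent.H3b28

open Finset Filter Topology

lemma L2 {α : ℝ} (hα : α = ∑' n : ℕ, (n : ℝ) / 2 ^ SS n) (ε : ℝ) (hε : 0 < ε) :
    ∀ᶠ N : ℕ in atTop, ∃ (K : ℕ) (B : ℕ → ℕ), 0 < K ∧
      (∀ l, 0 ≤ K * (2 ^ l * α) - B l ∧ K * (2 ^ l * α) - B l ≤ 1) ∧
      ∑ w ∈ range K, (∑ l ∈ Icc 1 N, if B l % K = w then (1 : ℝ) else 0) ^ 2 ≤ (1 + ε) * (N ^ 2 / K) ∧
      (N : ℝ) ^ (1 / 12 : ℝ) ≤ ε * K := by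
  obtain ⟨x0, hx0⟩ := exists_nat_ge (300 / ε + 4 / ε ^ 2 + 10)
  filter_upwards [eventually_ge_atTop (2 ^ (2 * (3 * x0 + 3)))] with N hN
  choose m r hmr using pos
  obtain ⟨M, hM⟩ : ∃ M, M = m N + 1 := ⟨_, rfl⟩
  obtain ⟨D, hD⟩ : ∃ D, D = Nat.size M := ⟨_, rfl⟩
  have M1 : M < 2 ^ D := hD ▸ Nat.lt_size_self M
  have M2 : N + r N + D = SS M := by rw [hM, SS_succ, ← hM, ← hD, (hmr N).1]
  have M3 : N ≤ 2 ^ (2 * D) := by
    have a1 := sum_le_card_nsmul (range (M + 1)) Nat.size D fun x hx =>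
      hD ▸ Nat.size_le_size (Nat.le_of_lt_succ (mem_range.mp hx))
    rw [card_range, smul_eq_mul] at a1
    rw [two_mul, pow_add]
    exact (show N ≤ SS M by omega).trans (a1.trans (Nat.mul_le_mul M1 Nat.lt_two_pow_self.le))
  have M4 : 3 * x0 + 3 ≤ D := by
    have := (Nat.pow_le_pow_iff_right (by norm_num)).mp (hN.trans M3)
    omega
  have M5 : 2 ^ D ≤ 2 * M := by
    obtain ⟨e, rfl⟩ : ∃ e, D = e + 1 := ⟨D - 1, by omega⟩
    rw [pow_succ']
    exact Nat.mul_le_mul_left _ (Nat.lt_size.mp (by omega))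
  have M6 : M * D ≤ N + 2 * 2 ^ D := by
    have a1 := SS_ge D M1
    have a2 := (hmr N).2.1 ((Nat.two_pow_pos _).trans_le hN)
    have a3 : Nat.size (m N) ≤ D := hD ▸ Nat.size_le_size (by omega)
    have a4 := Nat.lt_two_pow_self (n := D)
    rw [add_mul] at a1
    omega
  obtain ⟨k, k1, k2⟩ : ∃ k, 3 * (k + 1) ≤ D ∧ D ≤ 3 * (k + 1) + 2 := ⟨D / 3 - 1, by omega, by omega⟩
  have e1 : 0 < 300 / ε := by positivity
  have e2 : 0 < 4 / ε ^ 2 := by positivity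
  refine ⟨2 ^ (k + 1), fun l => AA (m (l + (k + 1))) / 2 ^ r (l + (k + 1)), by positivity,
    fun l => ?_, ?_, ?_⟩
  · have := cell hα (hmr (l + (k + 1))).1
    rwa [pow_add, mul_comm (2 ^ l : ℝ), mul_assoc, ← Nat.cast_ofNat (R := ℝ), ← Nat.cast_pow] at this
  · have c1 : ∀ w ∈ range (2 ^ (k + 1)), (∑ l ∈ Icc 1 N,
        if AA (m (l + (k + 1))) / 2 ^ r (l + (k + 1)) % 2 ^ (k + 1) = w then (1 : ℝ) else 0) ^ 2 ≤
        (2 ^ (D - (k + 1))) ^ 2 * (((D - k : ℕ) * (M / 2 ^ D) + 4) +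
          ∑ a ∈ range k, HH D M (a + 1) (w % 2 ^ (a + 1))) ^ 2 := by
      intro w _
      rw [← mul_pow]
      refine pow_le_pow_left₀ (by positivity) (le_trans ?_ (pt k1 M1)) 2
      rw [sum_sigma', sum_boole, sum_boole, Nat.cast_le]
      refine card_le_card_of_injOn (fun l => ⟨m (l + (k + 1)), r (l + (k + 1))⟩) (fun l hl => ?_)
        fun l _ l' _ h => ?_
      · obtain ⟨a1, a2⟩ := mem_filter.mp hl
        have := mem_Icc.mp a1
        exact mem_filter.mpr ⟨mem_sigma.mpr ⟨mem_range.mpr (Nat.lt_succ_of_le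
          ((hmr _).2.2 M (by omega))), mem_range.mpr ((hmr _).2.1 (by omega))⟩, a2⟩
      · simp only [Sigma.mk.injEq, heq_eq_eq] at h
        have a1 := (hmr (l + (k + 1))).1
        have a2 := (hmr (l' + (k + 1))).1
        rw [h.1, h.2] at a1
        omega
    refine (sum_le_sum c1).trans ?_
    rw [← mul_sum]
    refine (mul_le_mul_of_nonneg_left (mom (by omega) M5 M1.le _ (by positivity) k (by omega))
      (by positivity)).trans ?_
    have hθ : (1 : ℝ) / 2 ≤ M / 2 ^ D := by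
      rw [div_le_div_iff₀ (by norm_num) (by positivity), one_mul, mul_comm]; exact_mod_cast M5
    have hN' : 2 ^ D * (D * (M / 2 ^ D) - 2) ≤ (N : ℝ) := by
      have : (M : ℝ) * D ≤ N + 2 * 2 ^ D := by exact_mod_cast M6
      rw [mul_sub, mul_left_comm, mul_div_cancel₀ _ (by positivity)]
      linarith
    have hD' : 3 * (x0 : ℝ) + 3 ≤ D := by exact_mod_cast M4
    have hk' : (k : ℝ) ≤ D := by exact_mod_cast (by omega)
    rw [Nat.cast_sub (by omega)]
    generalize (M : ℝ) / 2 ^ D = θ at *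
    have x1 : (D : ℝ) ≤ 2 * (D * θ) := by nlinarith
    rw [show (D - k) * θ + 4 + k * θ + 2 = D * θ + 6 by ring]
    generalize D * θ = x at *
    have x2 : 300 ≤ ε * (x - 2) := by rw [← div_le_iff₀' hε]; linarith
    have x3 : (x + 6) ^ 2 + 16 * k ≤ (1 + ε) * (x - 2) ^ 2 := by nlinarith
    have x4 : (2 ^ D * (x - 2)) ^ 2 ≤ (N : ℝ) ^ 2 :=
      pow_le_pow_left₀ (mul_nonneg (by positivity) (by linarith)) hN' 2
    have x5 : (2 : ℝ) ^ D = 2 ^ (D - (k + 1)) * 2 ^ (k + 1) := by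
      rw [← pow_add, Nat.sub_add_cancel (by omega)]
    rw [← mul_div_assoc, le_div_iff₀ (by positivity)]
    refine le_trans ?_ (mul_le_mul_of_nonneg_left x4 (by positivity))
    push_cast
    calc _ = (2 ^ D) ^ 2 * ((x + 6) ^ 2 + 16 * k : ℝ) := by rw [x5]; ring
      _ ≤ (2 ^ D) ^ 2 * ((1 + ε) * (x - 2) ^ 2) := by gcongr
      _ = _ := by ring
  · rw [one_div, show (12 : ℝ) = (12 : ℕ) by norm_num,
      Real.rpow_inv_le_iff_of_pos (by positivity) (by positivity) (by positivity), Real.rpow_natCast]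
    have a1 : (N : ℝ) ≤ 2 ^ 4 * (2 ^ (k + 1)) ^ 6 := by
      rw [← pow_mul, ← pow_add]
      exact_mod_cast M3.trans (Nat.pow_le_pow_right (by norm_num) (by omega))
    have a2 : (x0 : ℝ) ≤ 2 ^ (k + 1) := by
      exact_mod_cast (show x0 ≤ k + 1 by omega).trans Nat.lt_two_pow_self.le
    have a3 : 4 ≤ ε ^ 2 * 2 ^ (k + 1) := by rw [← div_le_iff₀' (by positivity)]; linarith
    push_cast
    calc _ ≤ _ := a1
      _ ≤ (ε ^ 2 * 2 ^ (k + 1)) ^ 6 * (2 ^ (k + 1)) ^ 6 := by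
        gcongr
        exact le_trans (by norm_num) (pow_le_pow_left₀ (by norm_num) a3 6)
      _ = _ := by ring

lemma shift_cnt (I : Finset ℕ) (K : ℕ) (hK : 0 < K) (B : ℕ → ℕ) (η : ℝ)
    (h : ∑ w ∈ range K, (∑ l ∈ I, if B l % K = w then (1 : ℝ) else 0) ^ 2 ≤ I.card ^ 2 / K + η) (t : ℤ) :
    |∑ p ∈ I ×ˢ I, (if (K : ℤ) ∣ B p.1 - B p.2 - t then (1 : ℝ) else 0) - I.card ^ 2 / K| ≤ η := by
  have : NeZero K := ⟨hK.ne'⟩
  have hK' : (0 : ℝ) < K := by exact_mod_cast hK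
  obtain ⟨c, hc⟩ : ∃ c : ZMod K → ℝ, ∀ w, c w = ∑ l ∈ I, if (B l : ZMod K) = w then (1 : ℝ) else 0 :=
    ⟨_, fun _ => rfl⟩
  have h1 : ∑ w, c w ^ 2 = ∑ w ∈ range K, (∑ l ∈ I, if B l % K = w then (1 : ℝ) else 0) ^ 2 := by
    refine sum_nbij' ZMod.val (fun n => (n : ZMod K)) (fun w _ => mem_range.mpr (ZMod.val_lt w))
      (fun _ _ => mem_univ _) (fun w _ => ZMod.natCast_zmod_val w)
      (fun n hn => ZMod.val_cast_of_lt (mem_range.mp hn)) fun w _ => ?_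
    simp only [hc, ← ZMod.val_natCast, (ZMod.val_injective K).eq_iff]
  have h2 : ∑ w, c w = I.card := by
    simp only [hc]
    rw [sum_comm]
    simp
  have h3 : ∑ p ∈ I ×ˢ I, (if (K : ℤ) ∣ B p.1 - B p.2 - t then (1 : ℝ) else 0) =
      ∑ w, c (w + t) * c w := by
    simp only [hc, sum_mul_sum]
    rw [sum_product, sum_comm (s := univ)]
    refine sum_congr rfl fun l _ => ?_
    rw [sum_comm (s := univ)]
    refine sum_congr rfl fun l' _ => ?_
    simp only [mul_ite, mul_one, mul_zero, sum_ite_eq, mem_univ, if_true,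
      ← ZMod.intCast_zmod_eq_zero_iff_dvd]
    push_cast
    simp only [sub_sub, sub_eq_zero]
  have h4 : ∑ w, c (w + t) ^ 2 = ∑ w, c w ^ 2 :=
    Equiv.sum_comp (Equiv.addRight (t : ZMod K)) fun w => c w ^ 2
  have h5 : ∑ w, c (w + t) = ∑ w, c w := Equiv.sum_comp (Equiv.addRight (t : ZMod K)) c
  have h6 := sq_sum_le_card_mul_sum_sq (s := univ) (f := fun w => c (w + t) + c w)
  simp only [add_sq, sum_add_distrib, mul_assoc, ← mul_sum, h4, h5, h2, card_univ, ZMod.card] at h6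
  have h7 : 0 ≤ ∑ w, (c (w + t) - c w) ^ 2 := by positivity
  simp only [sub_sq, sum_add_distrib, sum_sub_distrib, mul_assoc, ← mul_sum, h4] at h7
  rw [← h1] at h
  have h8 : 4 * ((I.card : ℝ) ^ 2 / K) ≤ ∑ w, c w ^ 2 + 2 * ∑ w, c (w + t) * c w + ∑ w, c w ^ 2 := by
    rw [← mul_div_assoc, div_le_iff₀ hK']; linarith
  rw [h3, abs_le]
  constructor <;> linarith

lemma pair_cnt (I : Finset ℕ) (K : ℕ) (hK : 0 < K) (B : ℕ → ℕ) (y : ℕ → ℝ) (ε δ : ℝ) (hε : ε ≤ 1)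
    (hδ : 0 ≤ δ) (hδ' : δ ≤ 1 / 2) (hy : ∀ l, 0 ≤ K * y l - B l ∧ K * y l - B l ≤ 1)
    (h : ∑ w ∈ range K, (∑ l ∈ I, if B l % K = w then (1 : ℝ) else 0) ^ 2 ≤ (1 + ε) * (I.card ^ 2 / K))
    (R : ℝ) (hR : R = ((I ×ˢ I).filter fun p => p.1 ≠ p.2 ∧ |Int.fract (y p.1) - Int.fract (y p.2) -
      round (Int.fract (y p.1) - Int.fract (y p.2))| ≤ δ).card) :
    (2 * δ * K - 3) * ((1 - ε) * (I.card ^ 2 / K)) - I.card ≤ R ∧
      R ≤ (2 * δ * K + 3) * ((1 + ε) * (I.card ^ 2 / K)) := by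
  have hK' : (0 : ℝ) < K := by exact_mod_cast hK
  have P := fun t => abs_le.mp (shift_cnt I K hK B (ε * (I.card ^ 2 / K)) (by linarith) t)
  have f1 := Int.floor_le (δ * K)
  have f2 := Int.lt_floor_add_one (δ * K)
  have f3 : 0 ≤ ⌊δ * K⌋ := Int.floor_nonneg.mpr (by positivity)
  generalize ⌊δ * K⌋ = T at f1 f2 f3
  have Q0 : (0 : ℝ) ≤ I.card ^ 2 / K := by positivity
  rw [← sum_boole] at hR
  constructor
  · have a1 := card_nsmul_le_sum (Icc (-(T - 1)) (T - 1))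
      (fun t => ∑ p ∈ I ×ˢ I, (if (K : ℤ) ∣ B p.1 - B p.2 - t then (1 : ℝ) else 0))
      ((1 - ε) * (I.card ^ 2 / K)) fun t _ => by linarith [(P t).1]
    have a2 : 2 * δ * K - 3 ≤ (Icc (-(T - 1)) (T - 1)).card := by
      have : 2 * T - 1 ≤ ((Icc (-(T - 1)) (T - 1)).card : ℤ) := by rw [Int.card_Icc]; omega
      have : 2 * (T : ℝ) - 1 ≤ (Icc (-(T - 1)) (T - 1)).card := by exact_mod_cast this
      linarith
    rw [nsmul_eq_mul, sum_comm] at a1
    have a3 := (mul_le_mul_of_nonneg_right a2 (mul_nonneg (by linarith) Q0)).trans a1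
    have a4 : (I.card : ℝ) = ∑ p ∈ I ×ˢ I, if p.1 = p.2 then 1 else 0 := by
      rw [sum_product, sum_congr rfl (g := fun _ => 1) fun l hl => by simp [hl]]; simp
    rw [sub_le_iff_le_add, hR]
    nth_rewrite 2 [a4]
    rw [← sum_add_distrib]
    refine a3.trans (sum_le_sum fun p _ => ?_)
    rw [sum_boole]
    rcases eq_empty_or_nonempty ((Icc (-(T - 1)) (T - 1)).filter
      fun t => (K : ℤ) ∣ B p.1 - B p.2 - t) with h0 | ⟨t, ht⟩
    · rw [h0, card_empty, Nat.cast_zero]; positivity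
    · have b1 : ((Icc (-(T - 1)) (T - 1)).filter fun t => (K : ℤ) ∣ B p.1 - B p.2 - t).card ≤ 1 := by
        refine card_le_one.mpr fun s hs s' hs' => ?_
        obtain ⟨c1, c2⟩ := mem_filter.mp hs
        obtain ⟨c3, c4⟩ := mem_filter.mp hs'
        rw [mem_Icc] at c1 c3
        have c5 : 2 * T ≤ K := by exact_mod_cast (by nlinarith : 2 * (T : ℝ) ≤ K)
        have := Int.eq_zero_of_abs_lt_dvd (dvd_sub c2 c4) (abs_lt.mpr ⟨by omega, by omega⟩)
        omega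
      refine le_trans (by exact_mod_cast b1 : _ ≤ (1 : ℝ)) ?_
      obtain ⟨c1, z, c2⟩ := mem_filter.mp ht
      rw [mem_Icc] at c1
      by_cases hp : p.1 = p.2
      · rw [if_pos hp]; exact le_add_of_nonneg_left (by positivity)
      · rw [if_neg hp, if_pos, add_zero]
        refine ⟨hp, (round_le _ (z - ⌊y p.1⌋ + ⌊y p.2⌋)).trans ?_⟩
        have c3 : (B p.1 : ℝ) - B p.2 - t = K * z := by exact_mod_cast c2
        have c4 : -((T : ℝ) - 1) ≤ t := by exact_mod_cast c1.1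
        have c5 : (t : ℝ) ≤ T - 1 := by exact_mod_cast c1.2
        rw [Int.fract, Int.fract, abs_le]
        push_cast
        constructor <;> refine le_of_mul_le_mul_left ?_ hK' <;>
          linarith [(hy p.1).1, (hy p.1).2, (hy p.2).1, (hy p.2).2]
  · have a1 := sum_le_card_nsmul (Icc (-(T + 1)) (T + 1))
      (fun t => ∑ p ∈ I ×ˢ I, (if (K : ℤ) ∣ B p.1 - B p.2 - t then (1 : ℝ) else 0))
      ((1 + ε) * (I.card ^ 2 / K)) fun t _ => by linarith [(P t).2]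
    have a2 : ((Icc (-(T + 1)) (T + 1)).card : ℝ) ≤ 2 * δ * K + 3 := by
      have : ((Icc (-(T + 1)) (T + 1)).card : ℤ) ≤ 2 * T + 3 := by rw [Int.card_Icc]; omega
      have : ((Icc (-(T + 1)) (T + 1)).card : ℝ) ≤ 2 * (T : ℝ) + 3 := by exact_mod_cast this
      linarith
    rw [nsmul_eq_mul, sum_comm] at a1
    have a0 : 0 ≤ (1 + ε) * ((I.card : ℝ) ^ 2 / K) := le_trans (by positivity) h
    refine le_trans ?_ (a1.trans (mul_le_mul_of_nonneg_right a2 a0))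
    rw [hR]
    refine sum_le_sum fun p _ => ?_
    split_ifs with hp
    · obtain ⟨z, hz⟩ : ∃ z : ℤ, |y p.1 - y p.2 - z| ≤ δ :=
        ⟨round (Int.fract (y p.1) - Int.fract (y p.2)) + ⌊y p.1⌋ - ⌊y p.2⌋, by
          convert hp.2 using 2
          push_cast
          rw [Int.fract, Int.fract]; ring⟩
      rw [abs_le] at hz
      have c1 := mul_le_mul_of_nonneg_left hz.1 hK'.le
      have c2 := mul_le_mul_of_nonneg_left hz.2 hK'.le
      refine le_trans (le_of_eq (if_pos ⟨z, by ring⟩).symm) (single_le_sum (a := B p.1 - B p.2 - K * z)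
        (f := fun t => if (K : ℤ) ∣ B p.1 - B p.2 - t then (1 : ℝ) else 0) (fun _ _ => by positivity)
        (mem_Icc.mpr ⟨?_, ?_⟩))
      · have : -((T : ℝ) + 2) < B p.1 - B p.2 - K * z := by linarith [(hy p.1).2, (hy p.2).1]
        have : -(T + 2) < B p.1 - B p.2 - K * z := by exact_mod_cast this
        omega
      · have : (B p.1 : ℝ) - B p.2 - K * z < T + 2 := by linarith [(hy p.1).1, (hy p.2).2]
        have : B p.1 - B p.2 - K * z < T + 2 := by exact_mod_cast this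
        omega
    · positivity

end Pool.Agent.H3b28
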